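import Pool.Agent.helper4.WB.I2
import Pool.Agent.helper33.WB.Z4

/-! [WB-I2] the Margulis inequality, final form. -/

set_option autoImplicit false
open Matrix MeasureTheory

namespace Pool.Agent.helper21.WB

/-- [I2] For every lattice `∫_M s^(-5/2) ≤ C vol(M)`. -/
theorem margulis : ∃ C : ℝ, 0 < C ∧ ∀ (Γ : Subgroup GLI) (F : Set X), Lat Γ F →
    ∫⁻ y in F, ENNReal.ofReal (sinf Γ y ^ (-(5 / 2) : ℝ)) ∂μ ≤ ENNReal.ofReal C * μ F :=
  margulis_of count_small'

end Pool.Agent.helper21.WB
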